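import Pool.Agent.NH65.PL.Final
import Pool.Agent.NH65.PL.Bin
import Pool.Agent.NH65.PL.Mom
import Pool.Agent.NH65.PL.Rep
import Pool.Agent.NH65.PL.Cont
import Pool.Agent.NH65.PL.Count
import Pool.Agent.NH65.PL.Class
import Pool.Agent.NH65.PL.Phase
import Pool.Agent.NH65.PL.Orbit
import Pool.Agent.NH65.PL.Lift
import Pool.Agent.NH65.PL.Transfer
import Pool.Agent.NH65.PL.FTh
import Pool.Agent.NH65.PL.Num

/-!
# A basic periodic eigenvalue of the planar vector `p`-Laplacian with two scaling momenta

The question was whether, for every `p ∈ (1,∞) ∖ {2}` and every basic periodic eigenvalue `Λ`, all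
eigenfunctions for `Λ` have the same scaling momentum. The answer is no: for some `p > 2` there is a
basic periodic eigenvalue with two eigenfunctions of different scaling momenta.
-/

set_option autoImplicit false

namespace Pool.Agent.Results.MP_799515_an.TwoScalingMomenta

open Pool.Agent.NH65.PL Pool.Agent.NH65.PL.Final

/-- There are `p > 2`, a basic periodic eigenvalue `Λ` of the planar `p`-Laplacian and two
eigenfunctions `x`, `y` for `Λ`, whose scaling momenta are (in time) constants `mx ≠ my`. In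
particular it is not true that for all `p ≠ 2` the eigenfunctions of a basic periodic eigenvalue
all have the same scaling momentum. -/
theorem result :
    (∃ p : ℝ, 2 < p ∧ ∃ Λ : ℝ, IsBasic p Λ ∧
      ∃ x y : ℝ → E2, IsEig p Λ x ∧ IsEig p Λ y ∧
        ∃ mx my : ℝ, (∀ t, scalMom p (Λ ^ (1 / p)) x t = mx) ∧
          (∀ t, scalMom p (Λ ^ (1 / p)) y t = my) ∧ mx ≠ my) ∧
    ¬ ∀ p : ℝ, 1 < p → p ≠ 2 → ∀ Λ : ℝ, IsBasic p Λ → ∀ x y : ℝ → E2,
        IsEig p Λ x → IsEig p Λ y → ∀ t : ℝ,
          scalMom p (Λ ^ (1 / p)) x t = scalMom p (Λ ^ (1 / p)) y t := by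
  have h := Final.main (Rep.rep Bin.bin Mom.mom Cont.cont) Cont.cont FTh.fd FTh.ft Orbit.orbit
    (Class.cls Lift.lift Count.count) (Class.line Lift.lift Count.count) Transfer.circ
    Transfer.tr1 Transfer.tr2 Num.num (Num.num2 Num.num) Phase.phase
  refine ⟨h, ?_⟩
  intro hall
  obtain ⟨p, hp, Λ, hΛ, x, y, hx, hy, mx, my, h1, h2, hne⟩ := h
  apply hne
  rw [← h1 0, ← h2 0]
  exact hall p (by linarith) (by linarith) Λ hΛ x y hx hy 0

end Pool.Agent.Results.MP_799515_an.TwoScalingMomenta
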